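import Pool.Agent.H73.NK.Targets

/-!
MP_0cd084_nt, module BQ: the bad tuples for the primes of `PQ X`.
-/

set_option autoImplicit false

open Finset

namespace Pool.Agent.H48.BQ

open Pool.Agent.H73.NK
open Pool.Agent.H30.BV (SC SP NX WX wx)

/-- reciprocals of the numbers `n ≤ N` with `D ∣ n + 1` -/
lemma sum_div (D N : ℕ) :
    ∑ n ∈ (Icc 1 N).filter (fun n => D ∣ n + 1), (1 : ℝ) / n ≤
      2 * (1 + Real.log (N + 1)) * ((1 : ℝ) / D) := by
  have hlog : 0 ≤ Real.log ((N : ℝ) + 1) := Real.log_nonneg (by linarith [Nat.cast_nonneg (α := ℝ) N])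
  rcases Nat.eq_zero_or_pos D with hD | hD
  · subst hD
    have h0 : (Icc 1 N).filter (fun n => 0 ∣ n + 1) = ∅ := by
      refine Finset.filter_eq_empty_iff.2 fun n _ h => ?_
      have := Nat.eq_zero_of_zero_dvd h
      omega
    rw [h0]
    simp
  have hD' : (0 : ℝ) < D := Nat.cast_pos.2 hD
  have h1 : ∑ n ∈ (Icc 1 N).filter (fun n => D ∣ n + 1), (1 : ℝ) / n ≤
      ∑ n ∈ (Icc 1 N).filter (fun n => D ∣ n + 1), 2 / D * ((1 : ℝ) / ((n + 1) / D : ℕ)) := by
    refine Finset.sum_le_sum fun n hn => ?_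
    rw [Finset.mem_filter, Finset.mem_Icc] at hn
    obtain ⟨⟨hn1, hn2⟩, m, hm⟩ := hn
    have hm' : (n + 1) / D = m := by rw [hm]; exact Nat.mul_div_cancel_left m hD
    rw [hm']
    have hm0 : 0 < m := by
      rcases Nat.eq_zero_or_pos m with h | h
      · subst h; omega
      · exact h
    have hmr : (0 : ℝ) < m := Nat.cast_pos.2 hm0
    have hnr : (1 : ℝ) ≤ n := by exact_mod_cast hn1
    have hmn : (n : ℝ) + 1 = D * m := by exact_mod_cast hm
    rw [div_mul_div_comm, mul_one, div_le_div_iff₀ (by linarith) (mul_pos hD' hmr), ← hmn]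
    linarith
  have h2 : ∑ n ∈ (Icc 1 N).filter (fun n => D ∣ n + 1), 2 / D * ((1 : ℝ) / ((n + 1) / D : ℕ)) ≤
      2 / D * ∑ m ∈ Icc 1 (N + 1), (1 : ℝ) / m := by
    rw [← Finset.mul_sum]
    refine mul_le_mul_of_nonneg_left ?_ (by positivity)
    have hinj : Set.InjOn (fun n => (n + 1) / D) ((Icc 1 N).filter (fun n => D ∣ n + 1)) := by
      intro a ha b hb hab
      rw [Finset.mem_coe, Finset.mem_filter] at ha hb
      have ha' := Nat.mul_div_cancel' ha.2
      have hb' := Nat.mul_div_cancel' hb.2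
      have : (a + 1) / D = (b + 1) / D := hab
      rw [this] at ha'
      omega
    rw [← Finset.sum_image (f := fun m : ℕ => (1 : ℝ) / m) hinj]
    refine Finset.sum_le_sum_of_subset_of_nonneg ?_ fun _ _ _ => by positivity
    intro m hm
    rw [Finset.mem_image] at hm
    obtain ⟨n, hn, rfl⟩ := hm
    rw [Finset.mem_filter, Finset.mem_Icc] at hn
    rw [Finset.mem_Icc]
    refine ⟨Nat.div_pos (Nat.le_of_dvd (by omega) hn.2) hD, ?_⟩
    exact (Nat.div_le_self _ _).trans (by omega)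
  have h3 : ∑ m ∈ Icc 1 (N + 1), (1 : ℝ) / m ≤ 1 + Real.log (N + 1) := by
    have h := harmonic_le_one_add_log (N + 1)
    rw [harmonic_eq_sum_Icc] at h
    push_cast at h
    simpa [one_div] using h
  calc _ ≤ _ := h1
    _ ≤ _ := h2
    _ ≤ 2 / D * (1 + Real.log (N + 1)) := mul_le_mul_of_nonneg_left h3 (by positivity)
    _ = _ := by ring

/-- BQ. The bad tuples for the primes of `PQ X`. -/
theorem bq : T_BQ := by
  intro s z l X h hX hl
  have hN : (NX X : ℝ) + 1 ≤ 5 * X := by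
    have : (NX X : ℝ) < 3 * X + 1 := Nat.ceil_lt_add_one (by linarith)
    linarith
  have h1 : ∑ q ∈ PQ X, (bm z l h q : ℝ) / q =
      ∑ t ∈ BT z l h, ∑ q ∈ (PQ X).filter (fun q => DT t ∣ q + 1), (1 : ℝ) / q := by
    simp only [Finset.sum_filter]
    rw [Finset.sum_comm]
    refine Finset.sum_congr rfl fun q _ => ?_
    rw [← Finset.sum_filter, Finset.sum_const, nsmul_eq_mul, mul_one_div]
    rfl
  rw [h1, Finset.mul_sum]
  refine Finset.sum_le_sum fun t _ => ?_
  have h2 : ∑ q ∈ (PQ X).filter (fun q => DT t ∣ q + 1), (1 : ℝ) / q ≤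
      ∑ n ∈ (Icc 1 (NX X)).filter (fun n => DT t ∣ n + 1), (1 : ℝ) / n := by
    refine Finset.sum_le_sum_of_subset_of_nonneg ?_ fun _ _ _ => by positivity
    exact Finset.filter_subset_filter _ (Finset.filter_subset _ _)
  refine h2.trans ((sum_div (DT t) (NX X)).trans ?_)
  refine mul_le_mul_of_nonneg_right ?_ (by positivity)
  have : Real.log ((NX X : ℝ) + 1) ≤ Real.log (5 * X) :=
    Real.log_le_log (by positivity) hN
  linarith

end Pool.Agent.H48.BQ
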